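import Pool.Agent.Helper590.Tors6.D4Assemble

set_option autoImplicit false

namespace Pool.Agent.Results.MP_b2ee0b_nt.TorsionSixConstraints

/-- Let `0 < a < b < c` be a `D(4)`-triple and let `E` be the curve `y² = (ax+4)(bx+4)(cx+4)`,
written (with `X = abc x`, `Y = abc y`) in the Weierstrass form `Y² = (X+4ab)(X+4ac)(X+4bc)`.
If the rational torsion of `E` is isomorphic to `ℤ/2 × ℤ/6`, then all of the following hold. -/
theorem result (a b c : ℤ) (ha : 0 < a) (hab : a < b) (hbc : b < c)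
    (h1 : IsSquare (a * b + 4)) (h2 : IsSquare (a * c + 4)) (h3 : IsSquare (b * c + 4))
    (htors : Nonempty
        (↥(AddCommGroup.torsion
            (({ a₁ := 0,
                a₂ := (4 * (a * b + a * c + b * c) : ℚ),
                a₃ := 0,
                a₄ := (16 * (a * b * (a * c) + a * b * (b * c) + a * c * (b * c)) : ℚ),
                a₆ := (64 * (a * b) * (a * c) * (b * c) : ℚ) } :
                WeierstrassCurve ℚ).toAffine.Point))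
          ≃+ ZMod 2 × ZMod 6)) :
    -- the triple is not regular
    (∀ r : ℤ, r ^ 2 = a * b + 4 → c ≠ a + b + 2 * r) ∧
    -- congruence conditions
    (3 ∣ a * b ∧ 3 ∣ a * c ∧ 3 ∣ b * c) ∧
    (¬ 16 ∣ a * b + 4 ∧ ¬ 16 ∣ a * c + 4 ∧ ¬ 16 ∣ b * c + 4) ∧
    (¬ 2 ∣ a → ¬ 2 ∣ b → 32 ∣ c) ∧ (¬ 2 ∣ a → ¬ 2 ∣ c → 32 ∣ b) ∧ (¬ 2 ∣ b → ¬ 2 ∣ c → 32 ∣ a) ∧
    -- size constraints
    a * b < c ∧ (150 * c) ^ 3 < a ^ 2 * b ^ 7 ∧
    (7 * a) ^ 4 < b * (b - a) ^ 4 ∧ 42 ^ 4 * a < b ^ 4 ∧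
    -- a cubic condition on the triple divided by its greatest common divisor
    (∀ g a' b' c' : ℤ, 0 < g → a = g * a' → b = g * b' → c = g * c' →
      (∀ p : ℕ, p.Prime → ¬ ((p : ℤ) ∣ a' ∧ (p : ℤ) ∣ b' ∧ (p : ℤ) ∣ c')) →
      ∃ p : ℕ, p.Prime ∧
        (((p : ℤ) ∣ a' ∧ (p : ℤ) ∣ c' - b' ∧ (p : ℤ) ^ 3 ∣ a' * (c' - b')) ∨
         ((p : ℤ) ∣ b' ∧ (p : ℤ) ∣ c' - a' ∧ (p : ℤ) ^ 3 ∣ b' * (c' - a')) ∨
         ((p : ℤ) ∣ c' ∧ (p : ℤ) ∣ b' - a' ∧ (p : ℤ) ^ 3 ∣ c' * (b' - a')))) := by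
  obtain ⟨P, hP, h3P⟩ := Pool.Agent.Helper590.Tors6.exists_order3 _ htors
  exact Pool.Agent.Helper590.Tors6.D4.curve_main a b c ha hab hbc h1 h2 h3 _ rfl rfl rfl rfl rfl
    P hP h3P

end Pool.Agent.Results.MP_b2ee0b_nt.TorsionSixConstraints
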